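import Pool.Agent.H2.PDS.Targets

/-!
# Row BLK of pds_modules: a new block with few missing differences (helper2)
-/

set_option autoImplicit false

namespace Pool.Agent.H2.PDS

open Finset Filter Pool.Agent.H88.PD

/-- a block far to the right of `F` -/
lemma sid_union {F T' : Finset ℕ} {v X M : ℕ} (hF : Sid F) (hT : Sid T')
    (hFM : ∀ a ∈ F, 1 ≤ a ∧ a ≤ M) (hTv : ∀ a ∈ T', a < v) (hMv : M ≤ v) (hX : X = v + M)
    (hdel : ∀ a ∈ T', ∀ b ∈ T', b < a → ¬ Rep F (a - b)) :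
    Sid (F ∪ T'.image (fun s => X + s)) := by
  classical
  have hdel' : ∀ s ∈ T', ∀ t ∈ T', ∀ f ∈ F, ∀ g ∈ F, t < s → s + g = t + f → False := by
    intro s hs t ht f hf g hg hlt h
    exact hdel s hs t ht hlt ⟨f, hf, g, hg, by omega⟩
  intro a ha b hb c hc d hd hlt h
  rw [mem_union, mem_image] at ha hb hc hd
  rcases ha with ha | ⟨sa, ha, rfl⟩ <;> rcases hb with hb | ⟨sb, hb, rfl⟩ <;>
    rcases hc with hc | ⟨sc, hc, rfl⟩ <;> rcases hd with hd | ⟨sd, hd, rfl⟩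
  · exact hF a ha b hb c hc d hd hlt h
  · have := hFM a ha
    have := hFM c hc
    omega
  · have := hFM a ha
    have := hFM b hb
    have := hFM d hd
    have := hTv sc hc
    omega
  · exfalso
    rcases lt_trichotomy sd sc with h1 | h1 | h1
    · exact hdel' sc hc sd hd a ha b hb h1 (by omega)
    · omega
    · omega
  · have := hFM a ha
    omega
  · have := hFM a ha
    omega
  · have := hFM a ha
    omega
  · have := hFM a ha
    omega
  · have := hFM b hb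
    have := hFM c hc
    have := hFM d hd
    omega
  · have := hFM b hb
    have := hFM c hc
    omega
  · rcases lt_trichotomy sa sc with h1 | h1 | h1
    · exact (hdel' sc hc sa ha d hd b hb h1 (by omega)).elim
    · constructor
      · omega
      · omega
    · exact (hdel' sa ha sc hc b hb d hd h1 (by omega)).elim
  · have := hFM b hb
    have := hTv sc hc
    omega
  · exact (hdel' sa ha sb hb c hc d hd (by omega) (by omega)).elim
  · have := hFM c hc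
    have := hTv sa ha
    omega
  · have := hFM d hd
    have := hTv sa ha
    omega
  · have := hT sa ha sb hb sc hc sd hd (by omega) (by omega)
    constructor
    · omega
    · omega

lemma card_mult (p n : ℕ) : p * ((Icc 1 n).filter (fun j => p ∣ j)).card ≤ n := by
  have h1 : (Icc 1 n).filter (fun j => p ∣ j) = (Ioc 0 n).filter (fun j => p ∣ j) := by
    ext j
    rw [mem_filter, mem_filter, mem_Icc, mem_Ioc]
    constructor
    · rintro ⟨h2, h3⟩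
      exact ⟨⟨by omega, h2.2⟩, h3⟩
    · rintro ⟨h2, h3⟩
      exact ⟨⟨by omega, h2.2⟩, h3⟩
  rw [h1, Nat.Ioc_filter_dvd_card_eq_div]
  exact Nat.mul_div_le n p

lemma blk_num (m n a1 a2 a3 a4 c : ℕ) (hm : 1 ≤ m) (hn1 : 1 ≤ n) (hn : n ≤ m ^ 8)
    (h1 : 2 * m ^ 5 * a1 ≤ n) (h2 : 2 * m ^ 5 * a2 ≤ n) (h3 : 4 * m ^ 10 * a3 ≤ n * m ^ 8)
    (h4 : a4 ≤ 2 * m ^ 2 * (Nat.sqrt (2 * n) + 1)) (hc : c ≤ a1 + a2 + a3 + a4) :
    c ^ 2 ≤ 100 * m ^ 4 * n := by
  obtain ⟨r, hr⟩ : ∃ r : ℝ, r = Real.sqrt n := ⟨_, rfl⟩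
  have hn0 : (0 : ℝ) ≤ n := Nat.cast_nonneg n
  have hr2 : r ^ 2 = n := by rw [hr, Real.sq_sqrt hn0]
  have hM : (1 : ℝ) ≤ m := by exact_mod_cast hm
  have hM0 : (0 : ℝ) < m := by linarith
  have hr0 : 0 ≤ r := by rw [hr]; exact Real.sqrt_nonneg _
  have hr1 : 1 ≤ r := by
    rw [hr, Real.one_le_sqrt]
    exact_mod_cast hn1
  have hrM : r ≤ (m : ℝ) ^ 4 := by
    rw [hr, Real.sqrt_le_left (by positivity)]
    have h5 : ((m : ℝ) ^ 4) ^ 2 = (m : ℝ) ^ 8 := by ring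
    rw [h5]
    exact_mod_cast hn
  have hsq : (Nat.sqrt (2 * n) : ℝ) ≤ 2 * r := by
    have e1 : (Nat.sqrt (2 * n) : ℝ) ^ 2 ≤ 2 * n := by
      have := Nat.sqrt_le' (2 * n)
      exact_mod_cast this
    nlinarith [Nat.cast_nonneg (α := ℝ) (Nat.sqrt (2 * n))]
  have k1 : (a1 : ℝ) ≤ (m : ℝ) ^ 2 * r := by
    have e1 : 2 * (m : ℝ) ^ 5 * a1 ≤ r ^ 2 := by
      rw [hr2]
      exact_mod_cast h1
    have e2 : r ^ 2 ≤ r * (m : ℝ) ^ 4 := by nlinarith
    have e3 : (m : ℝ) ^ 5 * a1 ≤ (m : ℝ) ^ 5 * ((m : ℝ) ^ 2 * r) := by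
      have e4 : r * (m : ℝ) ^ 4 ≤ (m : ℝ) ^ 5 * ((m : ℝ) ^ 2 * r) := by
        have e5 : (m : ℝ) ^ 4 ≤ (m : ℝ) ^ 7 := pow_le_pow_right₀ hM (by norm_num)
        calc r * (m : ℝ) ^ 4 ≤ r * (m : ℝ) ^ 7 := mul_le_mul_of_nonneg_left e5 hr0
          _ = (m : ℝ) ^ 5 * ((m : ℝ) ^ 2 * r) := by ring
      have e6 : 0 ≤ (m : ℝ) ^ 5 * a1 := by positivity
      linarith
    exact le_of_mul_le_mul_left e3 (by positivity)
  have k2 : (a2 : ℝ) ≤ (m : ℝ) ^ 2 * r := by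
    have e1 : 2 * (m : ℝ) ^ 5 * a2 ≤ r ^ 2 := by
      rw [hr2]
      exact_mod_cast h2
    have e2 : r ^ 2 ≤ r * (m : ℝ) ^ 4 := by nlinarith
    have e3 : (m : ℝ) ^ 5 * a2 ≤ (m : ℝ) ^ 5 * ((m : ℝ) ^ 2 * r) := by
      have e4 : r * (m : ℝ) ^ 4 ≤ (m : ℝ) ^ 5 * ((m : ℝ) ^ 2 * r) := by
        have e5 : (m : ℝ) ^ 4 ≤ (m : ℝ) ^ 7 := pow_le_pow_right₀ hM (by norm_num)
        calc r * (m : ℝ) ^ 4 ≤ r * (m : ℝ) ^ 7 := mul_le_mul_of_nonneg_left e5 hr0
          _ = (m : ℝ) ^ 5 * ((m : ℝ) ^ 2 * r) := by ring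
      have e6 : 0 ≤ (m : ℝ) ^ 5 * a2 := by positivity
      linarith
    exact le_of_mul_le_mul_left e3 (by positivity)
  have k3 : (a3 : ℝ) ≤ (m : ℝ) ^ 2 * r := by
    have e1 : 4 * (m : ℝ) ^ 10 * a3 ≤ r ^ 2 * (m : ℝ) ^ 8 := by
      rw [hr2]
      exact_mod_cast h3
    have e2 : r ^ 2 * (m : ℝ) ^ 8 ≤ (r * (m : ℝ) ^ 4) * (m : ℝ) ^ 8 := by
      apply mul_le_mul_of_nonneg_right _ (by positivity)
      nlinarith
    have e3 : (m : ℝ) ^ 10 * a3 ≤ (m : ℝ) ^ 10 * ((m : ℝ) ^ 2 * r) := by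
      have e6 : 0 ≤ (m : ℝ) ^ 10 * a3 := by positivity
      have e7 : (r * (m : ℝ) ^ 4) * (m : ℝ) ^ 8 = (m : ℝ) ^ 10 * ((m : ℝ) ^ 2 * r) := by ring
      linarith
    exact le_of_mul_le_mul_left e3 (by positivity)
  have k4 : (a4 : ℝ) ≤ 6 * ((m : ℝ) ^ 2 * r) := by
    have e1 : (a4 : ℝ) ≤ 2 * (m : ℝ) ^ 2 * (Nat.sqrt (2 * n) + 1) := by exact_mod_cast h4
    have e2 : 2 * (m : ℝ) ^ 2 * (Nat.sqrt (2 * n) + 1) ≤ 2 * (m : ℝ) ^ 2 * (3 * r) := by
      apply mul_le_mul_of_nonneg_left _ (by positivity)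
      linarith
    linarith
  have k5 : (c : ℝ) ≤ 9 * ((m : ℝ) ^ 2 * r) := by
    have e1 : (c : ℝ) ≤ a1 + a2 + a3 + a4 := by exact_mod_cast hc
    linarith
  have k6 : (c : ℝ) ^ 2 ≤ 100 * (m : ℝ) ^ 4 * n := by
    have e1 : (c : ℝ) ^ 2 ≤ (9 * ((m : ℝ) ^ 2 * r)) ^ 2 :=
      pow_le_pow_left₀ (Nat.cast_nonneg c) k5 2
    have e2 : (9 * ((m : ℝ) ^ 2 * r)) ^ 2 = 81 * ((m : ℝ) ^ 4 * r ^ 2) := by ring
    have e3 : 0 ≤ (m : ℝ) ^ 4 * r ^ 2 := by positivity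
    rw [← hr2]
    linarith
  exact_mod_cast k6

theorem pf_BLK (hRUZ : T_RUZ) (hTRA : T_TRA) (hDEL : T_DEL) : T_BLK := by
  classical
  refine ⟨100, ?_⟩
  intro m F hm hF hFm hFc
  have hmp : ∀ k, 1 ≤ m ^ k := fun k => Nat.one_le_pow _ _ hm
  have hm5 := hmp 5
  obtain ⟨p, hp, hp1, hp2⟩ := Nat.exists_prime_lt_and_le_two_mul (2 * m ^ 5) (by omega)
  obtain ⟨S, hSv, hSc, hSm, hSrep⟩ := hRUZ p hp (by omega)
  obtain ⟨v, hv⟩ : ∃ v, v = p * (p - 1) := ⟨_, rfl⟩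
  rw [← hv] at hSv hSm hSrep
  have hv4 : 4 * m ^ 10 ≤ v := by
    rw [hv]
    calc 4 * m ^ 10 = (2 * m ^ 5) * (2 * m ^ 5) := by ring
      _ ≤ p * (p - 1) := Nat.mul_le_mul (by omega) (by omega)
  have hv16 : v ≤ 16 * m ^ 10 := by
    rw [hv]
    calc p * (p - 1) ≤ (4 * m ^ 5) * (4 * m ^ 5) := Nat.mul_le_mul (by omega) (by omega)
      _ = 16 * m ^ 10 := by ring
  have hm8 : m ^ 8 ≤ m ^ 10 := Nat.pow_le_pow_right hm (by norm_num)
  obtain ⟨T, hTv, hTc, hTS, hTrep⟩ := hTRA v (m ^ 8) S hSv hSm (by omega)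
  obtain ⟨T', hT'T, hT'd, hT'c⟩ := hDEL F T hTS
  have hT'v : ∀ a ∈ T', a < v := fun a ha => mem_range.1 (hTv (hT'T ha))
  have hT'S : Sid T' := fun a ha b hb c hc d hd =>
    hTS a (hT'T ha) b (hT'T hb) c (hT'T hc) d (hT'T hd)
  obtain ⟨X, hX⟩ : ∃ X, X = v + m ^ 10 := ⟨_, rfl⟩
  refine ⟨F ∪ T'.image (fun s => X + s), subset_union_left, ?_, ?_, ?_, ?_⟩
  · exact sid_union hF hT'S hFm hT'v (by omega) hX hT'd
  · intro a ha
    rw [mem_union, mem_image] at ha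
    have := hmp 10
    rcases ha with ha | ⟨s, hs, rfl⟩
    · have := hFm a ha
      omega
    · have := hT'v s hs
      omega
  · have h1 := card_union_le F (T'.image (fun s => X + s))
    have h2 : (T'.image (fun s => X + s)).card ≤ T'.card := card_image_le
    have h3 := card_le_card hT'T
    have h4 : m ≤ m ^ 5 := Nat.le_self_pow (by norm_num) m
    omega
  · intro n hn
    rcases Nat.eq_zero_or_pos n with hn0 | hn0
    · rw [hn0]
      unfold mis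
      simp
    · refine blk_num m n ((Icc 1 n).filter (fun j => p ∣ j)).card
        ((Icc 1 n).filter (fun j => (p - 1) ∣ j)).card
        ((Icc 1 n).filter (fun j => RepMod v S j ∧ ¬ Rep T j)).card
        ((Icc 1 n).filter (fun j => Rep T j ∧ ¬ Rep T' j ∧ ¬ Rep F j)).card _ hm hn0 hn
        ?_ ?_ ?_ ?_ ?_
      · exact (Nat.mul_le_mul_right _ (by omega)).trans (card_mult p n)
      · exact (Nat.mul_le_mul_right _ (by omega)).trans (card_mult (p - 1) n)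
      · exact (Nat.mul_le_mul_right _ hv4).trans (hTrep n hn)
      · refine (hT'c n).trans ?_
        refine Nat.mul_le_mul_right _ (Nat.mul_le_mul_left _ ?_)
        exact Nat.pow_le_pow_left hFc 2
      · unfold mis
        have hsub : (Icc 1 n).filter (fun j => ¬ Rep (F ∪ T'.image (fun s => X + s)) j) ⊆
            ((Icc 1 n).filter (fun j => p ∣ j)) ∪ ((Icc 1 n).filter (fun j => (p - 1) ∣ j)) ∪
            ((Icc 1 n).filter (fun j => RepMod v S j ∧ ¬ Rep T j)) ∪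
            ((Icc 1 n).filter (fun j => Rep T j ∧ ¬ Rep T' j ∧ ¬ Rep F j)) := by
          intro j hj
          rw [mem_filter] at hj
          obtain ⟨hj1, hj2⟩ := hj
          rw [mem_union, mem_union, mem_union, mem_filter, mem_filter, mem_filter, mem_filter]
          by_cases e1 : p ∣ j
          · exact Or.inl (Or.inl (Or.inl ⟨hj1, e1⟩))
          by_cases e2 : (p - 1) ∣ j
          · exact Or.inl (Or.inl (Or.inr ⟨hj1, e2⟩))
          by_cases e3 : Rep T j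
          · refine Or.inr ⟨hj1, e3, ?_, ?_⟩
            · rintro ⟨a, ha, b, hb, hab⟩
              apply hj2
              refine ⟨X + a, mem_union_right _ (mem_image.2 ⟨a, ha, rfl⟩), X + b,
                mem_union_right _ (mem_image.2 ⟨b, hb, rfl⟩), ?_⟩
              omega
            · rintro ⟨a, ha, b, hb, hab⟩
              exact hj2 ⟨a, mem_union_left _ ha, b, mem_union_left _ hb, hab⟩
          · exact Or.inl (Or.inr ⟨hj1, hSrep j e1 e2, e3⟩)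
        have h0 := card_le_card hsub
        have h1 := card_union_le (((Icc 1 n).filter (fun j => p ∣ j)) ∪
          ((Icc 1 n).filter (fun j => (p - 1) ∣ j)) ∪
          ((Icc 1 n).filter (fun j => RepMod v S j ∧ ¬ Rep T j)))
          ((Icc 1 n).filter (fun j => Rep T j ∧ ¬ Rep T' j ∧ ¬ Rep F j))
        have h2 := card_union_le (((Icc 1 n).filter (fun j => p ∣ j)) ∪
          ((Icc 1 n).filter (fun j => (p - 1) ∣ j)))
          ((Icc 1 n).filter (fun j => RepMod v S j ∧ ¬ Rep T j))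
        have h3 := card_union_le ((Icc 1 n).filter (fun j => p ∣ j))
          ((Icc 1 n).filter (fun j => (p - 1) ∣ j))
        omega

end Pool.Agent.H2.PDS
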