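import Pool.Agent.H2.PDS.Targets

/-!
# Row DEL of pds_modules: deletion of the differences of `F` (helper2)
-/

set_option autoImplicit false

namespace Pool.Agent.H2.PDS

open Finset Filter Pool.Agent.H88.PD

/-- a Sidon set in an interval of length `n` is small -/
lemma sid_window {U : Finset ℕ} {u n : ℕ} (hU : Sid U) (hw : ∀ x ∈ U, u ≤ x ∧ x ≤ u + n) :
    U.card ≤ Nat.sqrt (2 * n) + 1 := by
  classical
  have h1 : ((U ×ˢ U).filter (fun q => q.2 < q.1)).card ≤ n := by
    have h2 : ((U ×ˢ U).filter (fun q => q.2 < q.1)).card ≤ (Icc 1 n).card := by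
      refine card_le_card_of_injOn (fun q => q.1 - q.2) ?_ ?_
      · intro q hq
        rw [mem_coe, mem_filter, mem_product] at hq
        rw [mem_coe, mem_Icc]
        have e1 := hw _ hq.1.1
        have e2 := hw _ hq.1.2
        have e3 := hq.2
        show 1 ≤ q.1 - q.2 ∧ q.1 - q.2 ≤ n
        constructor <;> omega
      · intro q hq q' hq' h
        rw [mem_coe, mem_filter, mem_product] at hq hq'
        have e3 := hq.2
        have e4 := hq'.2
        have h3 : q.1 - q.2 = q'.1 - q'.2 := h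
        have h4 := hU q.1 hq.1.1 q.2 hq.1.2 q'.1 hq'.1.1 q'.2 hq'.1.2 e3 (by omega)
        exact Prod.ext h4.1 h4.2
    rwa [Nat.card_Icc, Nat.add_sub_cancel] at h2
  have h2 : ((U ×ˢ U).filter (fun q => q.1 < q.2)).card ≤ n := by
    refine le_trans (card_le_card_of_injOn (fun q : ℕ × ℕ => (q.2, q.1)) ?_ ?_) h1
    · intro q hq
      rw [mem_coe, mem_filter, mem_product] at hq
      rw [mem_coe, mem_filter, mem_product]
      exact ⟨⟨hq.1.2, hq.1.1⟩, hq.2⟩
    · intro q _ q' _ h
      have h3 : (q.2, q.1) = (q'.2, q'.1) := h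
      rw [Prod.mk.injEq] at h3
      exact Prod.ext h3.2 h3.1
  have h3 : U.offDiag ⊆ (U ×ˢ U).filter (fun q => q.2 < q.1) ∪
      (U ×ˢ U).filter (fun q => q.1 < q.2) := by
    intro q hq
    rw [mem_offDiag] at hq
    rw [mem_union, mem_filter, mem_filter, mem_product]
    rcases lt_or_gt_of_ne hq.2.2 with h | h
    · exact Or.inr ⟨⟨hq.1, hq.2.1⟩, h⟩
    · exact Or.inl ⟨⟨hq.1, hq.2.1⟩, h⟩
  have h4 := (card_le_card h3).trans (card_union_le _ _)
  rw [offDiag_card] at h4
  rcases Nat.eq_zero_or_pos U.card with h0 | h0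
  · omega
  · obtain ⟨k, hk⟩ : ∃ k, U.card = k + 1 := ⟨U.card - 1, by omega⟩
    rw [hk] at h4 ⊢
    have h5 : k ≤ Nat.sqrt (2 * n) := by
      rw [Nat.le_sqrt]
      have h6 : (k + 1) * (k + 1) - (k + 1) = k * k + k := by
        have : (k + 1) * (k + 1) = k * k + k + (k + 1) := by ring
        omega
      omega
    omega

theorem pf_DEL : T_DEL := by
  classical
  intro F T hT
  have hex : ∀ d, ∃ a, Rep T d → (a ∈ T ∧ ∃ b ∈ T, a = b + d) := by
    intro d
    by_cases h : Rep T d
    · obtain ⟨a, ha, b, hb, hab⟩ := h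
      exact ⟨a, fun _ => ⟨ha, b, hb, hab⟩⟩
    · exact ⟨0, fun h' => absurd h' h⟩
  choose top htop using hex
  obtain ⟨X, hX⟩ : ∃ X : Finset ℕ, X = (F ×ˢ F).image (fun q => top (q.1 - q.2)) := ⟨_, rfl⟩
  have hXc : X.card ≤ F.card ^ 2 := by
    rw [hX]
    refine card_image_le.trans ?_
    rw [card_product]
    apply le_of_eq
    ring
  have hTsub : ∀ V : Finset ℕ, V ⊆ T → Sid V := fun V hV a ha b hb c hc d hd =>
    hT a (hV ha) b (hV hb) c (hV hc) d (hV hd)
  refine ⟨T \ X, sdiff_subset, ?_, ?_⟩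
  · intro a ha b hb hlt
    rw [Finset.mem_sdiff] at ha hb
    rintro ⟨f, hf, g, hg, hfg⟩
    have hR : Rep T (a - b) := ⟨a, ha.1, b, hb.1, by omega⟩
    obtain ⟨h1, b0, hb0, h2⟩ := htop (a - b) hR
    have h3 := (hT a ha.1 b hb.1 _ h1 b0 hb0 hlt (by omega)).1
    apply ha.2
    rw [hX]
    refine mem_image.2 ⟨(f, g), mem_product.2 ⟨hf, hg⟩, ?_⟩
    have h4 : f - g = a - b := by omega
    show top (f - g) = a
    rw [h4, ← h3]
  · intro n
    have hsub : (Icc 1 n).filter (fun j => Rep T j ∧ ¬ Rep (T \ X) j ∧ ¬ Rep F j) ⊆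
        X.biUnion (fun x => ((T.filter (fun b => x - n ≤ b ∧ b < x)).image (fun b => x - b)) ∪
          ((T.filter (fun a => x < a ∧ a ≤ x + n)).image (fun a => a - x))) := by
      intro j hj
      rw [mem_filter, mem_Icc] at hj
      obtain ⟨⟨hj1, hjn⟩, ⟨a, ha, b, hb, hab⟩, hj2, _⟩ := hj
      rw [mem_biUnion]
      by_cases haX : a ∈ X
      · refine ⟨a, haX, mem_union_left _ (mem_image.2 ⟨b, mem_filter.2 ⟨hb, ?_, ?_⟩, ?_⟩)⟩
        · omega
        · omega
        · show a - b = j
          omega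
      · have hbX : b ∈ X := by
          by_contra hbX
          exact hj2 ⟨a, Finset.mem_sdiff.2 ⟨ha, haX⟩, b, Finset.mem_sdiff.2 ⟨hb, hbX⟩, hab⟩
        refine ⟨b, hbX, mem_union_right _ (mem_image.2 ⟨a, mem_filter.2 ⟨ha, ?_, ?_⟩, ?_⟩)⟩
        · omega
        · omega
        · show a - b = j
          omega
    refine (card_le_card hsub).trans ?_
    refine (card_biUnion_le_card_mul _ _ (2 * (Nat.sqrt (2 * n) + 1)) ?_).trans ?_
    · intro x _
      refine (card_union_le _ _).trans ?_
      have e1 : ((T.filter (fun b => x - n ≤ b ∧ b < x)).image (fun b => x - b)).card ≤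
          Nat.sqrt (2 * n) + 1 := by
        refine card_image_le.trans ?_
        refine sid_window (u := x - n) (hTsub _ (filter_subset _ _)) ?_
        intro y hy
        rw [mem_filter] at hy
        constructor <;> omega
      have e2 : ((T.filter (fun a => x < a ∧ a ≤ x + n)).image (fun a => a - x)).card ≤
          Nat.sqrt (2 * n) + 1 := by
        refine card_image_le.trans ?_
        refine sid_window (u := x) (hTsub _ (filter_subset _ _)) ?_
        intro y hy
        rw [mem_filter] at hy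
        constructor <;> omega
      omega
    · calc X.card * (2 * (Nat.sqrt (2 * n) + 1)) ≤ F.card ^ 2 * (2 * (Nat.sqrt (2 * n) + 1)) :=
            Nat.mul_le_mul_right _ hXc
        _ = 2 * F.card ^ 2 * (Nat.sqrt (2 * n) + 1) := by ring

end Pool.Agent.H2.PDS
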