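import Pool.Agent.H2.PDS.Targets

/-!
# Row EXT of pds_modules: the extension step (helper2)
-/

set_option autoImplicit false

namespace Pool.Agent.H2.PDS

open Finset Filter Pool.Agent.H88.PD

lemma mis_le (F : Finset ℕ) (n : ℕ) : mis F n ≤ n := by
  classical
  unfold mis
  refine (card_filter_le _ _).trans ?_
  rw [Nat.card_Icc]
  omega

theorem pf_EXT (hBLK : T_BLK) (hREP : T_REP) : T_EXT := by
  classical
  obtain ⟨C0, hC0⟩ := hBLK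
  obtain ⟨K0, hK0⟩ := hREP
  obtain ⟨C, hC⟩ : ∃ C, C = C0 + 1 := ⟨_, rfl⟩
  obtain ⟨K, hK⟩ : ∃ K, K = K0 + 1 := ⟨_, rfl⟩
  refine ⟨4 * K * C ^ 2, ?_⟩
  intro m F hm hF hFm hFc
  obtain ⟨F1, hFF1, hS1, hF1, hF1c, hmis⟩ := hC0 m F hm hF hFm hFc
  have hC1 : 1 ≤ C := by omega
  have hK1 : 1 ≤ K := by omega
  have hmp : ∀ k, 1 ≤ m ^ k := fun k => Nat.one_le_pow _ _ hm
  have hm8 : m ^ 8 ≤ m ^ 10 := Nat.pow_le_pow_right hm (by norm_num)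
  have hC0C : ∀ z : ℕ, C0 * z ≤ C * z := fun z => Nat.mul_le_mul_right _ (by omega)
  have hF1' : ∀ a ∈ F1, 1 ≤ a ∧ a ≤ C * m ^ 10 := fun a ha =>
    ⟨(hF1 a ha).1, (hF1 a ha).2.trans (hC0C _)⟩
  have hF1c' : F1.card ≤ C * m ^ 5 := hF1c.trans (hC0C _)
  have hY1 : 1 ≤ C * m ^ 10 := Nat.one_le_iff_ne_zero.2 (by
    have := hmp 10
    positivity)
  have hNY : m ^ 8 ≤ C * m ^ 10 := hm8.trans (Nat.le_mul_of_pos_left _ (by omega))
  obtain ⟨F2, hF12, hS2, hF2, hF2c, hrep⟩ := hK0 (C * m ^ 10) (m ^ 8) F1 hF1' hY1 hNY hS1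
  -- bounds for `R = mis F1 n`
  have hR2 : ∀ n ≤ m ^ 8, mis F1 n ^ 2 ≤ C * m ^ 4 * n := by
    intro n hn
    refine (hmis n hn).trans ?_
    exact Nat.mul_le_mul_right _ (hC0C _)
  have hR6 : ∀ n ≤ m ^ 8, mis F1 n ≤ C * m ^ 6 := by
    intro n hn
    have h1 : mis F1 n ^ 2 ≤ (C * m ^ 6) ^ 2 := by
      calc mis F1 n ^ 2 ≤ C * m ^ 4 * n := hR2 n hn
        _ ≤ C * m ^ 4 * m ^ 8 := Nat.mul_le_mul_left _ hn
        _ = C * 1 * m ^ 12 := by ring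
        _ ≤ C * C * m ^ 12 := Nat.mul_le_mul_right _ (Nat.mul_le_mul_left _ hC1)
        _ = (C * m ^ 6) ^ 2 := by ring
    exact (Nat.pow_le_pow_iff_left (by norm_num)).1 h1
  have hbound : ∀ n, 1 ≤ n → n ≤ m ^ 8 →
      K0 * (C * m ^ 10 + mis F1 n * (C * m ^ 10) + mis F1 n ^ 2 * F1.card + mis F1 n ^ 3) ≤
        4 * K * C ^ 2 * n * m ^ 10 := by
    intro n hn1 hn8
    have hC2 : C ≤ C ^ 2 := by
      calc C = C * 1 := (mul_one C).symm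
        _ ≤ C * C := Nat.mul_le_mul_left _ hC1
        _ = C ^ 2 := by ring
    have b1 : C * m ^ 10 ≤ C ^ 2 * n * m ^ 10 := by
      calc C * m ^ 10 = C * 1 * m ^ 10 := by ring
        _ ≤ C ^ 2 * n * m ^ 10 := Nat.mul_le_mul_right _ (Nat.mul_le_mul hC2 hn1)
    have b2 : mis F1 n * (C * m ^ 10) ≤ C ^ 2 * n * m ^ 10 := by
      calc mis F1 n * (C * m ^ 10) ≤ n * (C * m ^ 10) := Nat.mul_le_mul_right _ (mis_le F1 n)
        _ = C * n * m ^ 10 := by ring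
        _ ≤ C ^ 2 * n * m ^ 10 := Nat.mul_le_mul_right _ (Nat.mul_le_mul_right _ hC2)
    have b3 : mis F1 n ^ 2 * F1.card ≤ C ^ 2 * n * m ^ 10 := by
      calc mis F1 n ^ 2 * F1.card ≤ (C * m ^ 4 * n) * (C * m ^ 5) :=
            Nat.mul_le_mul (hR2 n hn8) hF1c'
        _ = C ^ 2 * n * m ^ 9 := by ring
        _ ≤ C ^ 2 * n * m ^ 10 := Nat.mul_le_mul_left _ (Nat.pow_le_pow_right hm (by norm_num))
    have b4 : mis F1 n ^ 3 ≤ C ^ 2 * n * m ^ 10 := by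
      calc mis F1 n ^ 3 = mis F1 n ^ 2 * mis F1 n := by ring
        _ ≤ (C * m ^ 4 * n) * (C * m ^ 6) := Nat.mul_le_mul (hR2 n hn8) (hR6 n hn8)
        _ = C ^ 2 * n * m ^ 10 := by ring
    calc K0 * (C * m ^ 10 + mis F1 n * (C * m ^ 10) + mis F1 n ^ 2 * F1.card + mis F1 n ^ 3)
        ≤ K * (4 * (C ^ 2 * n * m ^ 10)) := Nat.mul_le_mul (by omega) (by omega)
      _ = 4 * K * C ^ 2 * n * m ^ 10 := by ring
  refine ⟨F2, hFF1.trans hF12, hS2, ?_, ?_, ?_, ?_⟩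
  · intro a ha
    refine ⟨(hF2 a ha).1, (hF2 a ha).2.trans ?_⟩
    refine (hbound (m ^ 8) (hmp 8) le_rfl).trans ?_
    apply le_of_eq
    ring
  · have h1 := hR6 (m ^ 8) le_rfl
    have h2 : C * m ^ 5 ≤ C * m ^ 6 :=
      Nat.mul_le_mul_left _ (Nat.pow_le_pow_right hm (by norm_num))
    calc F2.card ≤ F1.card + 2 * mis F1 (m ^ 8) := hF2c
      _ ≤ 4 * 1 * 1 * (C * m ^ 6) := by omega
      _ ≤ 4 * K * C * (C * m ^ 6) :=
          Nat.mul_le_mul_right _ (Nat.mul_le_mul (Nat.mul_le_mul_left _ hK1) hC1)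
      _ = 4 * K * C ^ 2 * m ^ 6 := by ring
  · intro n hn1 hn2
    obtain ⟨a, ha, b, hb, hab, hle⟩ := hrep n hn1 hn2
    exact ⟨a, ha, b, hb, hab, hle.trans (hbound n hn1 hn2)⟩
  · have hcoef : ∀ z : ℕ, C * z ≤ 4 * K * C ^ 2 * z := by
      intro z
      calc C * z = 1 * 1 * (C * 1) * z := by ring
        _ ≤ 4 * K * (C * C) * z := Nat.mul_le_mul_right _ (Nat.mul_le_mul (Nat.mul_le_mul
            (by norm_num) hK1) (Nat.mul_le_mul_left _ hC1))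
        _ = 4 * K * C ^ 2 * z := by ring
    refine le_trans (card_le_card ?_) ((hR6 (m ^ 8) le_rfl).trans (hcoef _))
    intro n hn
    rw [mem_filter] at hn ⊢
    refine ⟨hn.1, ?_⟩
    rintro ⟨a, ha, b, hb, hab⟩
    exact hn.2 ⟨a, hF12 ha, b, hF12 hb, hab, (hF1' a ha).2.trans (hcoef _)⟩

end Pool.Agent.H2.PDS
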