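import Pool.Agent.H2.PDS.Targets

/-!
MP_35c1fe_nt: assembly of the final statement from the rows UNI and GRW.
-/

set_option autoImplicit false

namespace Pool.Agent.H2.PDS

open Finset Filter Pool.Agent.H88.PD

lemma pow8_54 (m : ℕ) : (((m ^ 8 : ℕ) : ℝ)) ^ (5 / 4 : ℝ) = (m : ℝ) ^ 10 := by
  have hm : (0 : ℝ) ≤ m := Nat.cast_nonneg m
  rw [Nat.cast_pow, ← Real.rpow_natCast (m : ℝ) 8, ← Real.rpow_mul hm,
    ← Real.rpow_natCast (m : ℝ) 10]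
  norm_num

lemma pow8_34 (m : ℕ) : (((m ^ 8 : ℕ) : ℝ)) ^ (3 / 4 : ℝ) = (m : ℝ) ^ 6 := by
  have hm : (0 : ℝ) ≤ m := Nat.cast_nonneg m
  rw [Nat.cast_pow, ← Real.rpow_natCast (m : ℝ) 8, ← Real.rpow_mul hm,
    ← Real.rpow_natCast (m : ℝ) 6]
  norm_num

theorem final (hUNI : T_UNI) (hGRW : T_GRW) :
    (∃ C : ℝ, 0 < C ∧ ∃ A : Set ℕ, IsPerfectDifferenceSet A ∧ ∀ x : ℕ, 1 ≤ x →
      ∃ N : ℕ, x ≤ N ∧ (N : ℝ) ≤ C * x ^ 6 ∧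
        (∀ n, 1 ≤ n → n ≤ N → ∃ a ∈ A, ∃ b ∈ A, a = b + n ∧
          (a : ℝ) ≤ C * n * (N : ℝ) ^ (5 / 4 : ℝ)) ∧
        ({n : ℕ | 1 ≤ n ∧ n ≤ N ∧ ∃ a ∈ A, ∃ b ∈ A, a = b + n ∧
          C * (N : ℝ) ^ (5 / 4 : ℝ) < a}.ncard : ℝ) ≤ C * (N : ℝ) ^ (3 / 4 : ℝ)) ∧
    (∃ C : ℝ, 0 < C ∧ ∀ ω : ℕ → ℝ, Tendsto ω atTop atTop →
      ∃ G : ℕ → ℝ, Monotone G ∧ G ∉ growthClass ∧ ∀ᶠ x : ℕ in atTop,
        ∃ N : ℕ, x ≤ N ∧ (N : ℝ) ≤ C * x ^ 6 ∧ G N ≤ ω N * (N : ℝ) ^ (5 / 4 : ℝ)) := by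
  classical
  obtain ⟨C, hC1, A, hA, hall⟩ := hUNI
  have hC0 : (0 : ℝ) < C := by exact_mod_cast hC1
  refine ⟨⟨C, hC0, A, hA, ?_⟩, ⟨C, hC0, ?_⟩⟩
  · intro x hx
    obtain ⟨m, hm1, hxm, hmx, h1, h2⟩ := hall x hx
    refine ⟨m ^ 8, hxm, ?_, ?_, ?_⟩
    · exact_mod_cast hmx
    · intro n hn1 hn2
      obtain ⟨a, ha, b, hb, hab, hle⟩ := h1 n hn1 hn2
      refine ⟨a, ha, b, hb, hab, ?_⟩
      rw [pow8_54]
      exact_mod_cast hle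
    · rw [pow8_54, pow8_34]
      have hsub : {n : ℕ | 1 ≤ n ∧ n ≤ m ^ 8 ∧ ∃ a ∈ A, ∃ b ∈ A, a = b + n ∧
          (C : ℝ) * (m : ℝ) ^ 10 < a} ⊆ (((Icc 1 (m ^ 8)).filter
          (fun n => ¬ ∃ a ∈ A, ∃ b ∈ A, a = b + n ∧ a ≤ C * m ^ 10) : Finset ℕ) : Set ℕ) := by
        rintro n ⟨hn1, hn2, a, ha, b, hb, hab, hlt⟩
        rw [Finset.mem_coe, Finset.mem_filter, Finset.mem_Icc]
        refine ⟨⟨hn1, hn2⟩, ?_⟩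
        rintro ⟨a', ha', b', hb', hab', hle⟩
        have := (pds_unique hA ha hb ha' hb' hn1 hab hab').1
        rw [this] at hlt
        have h3 : (a' : ℝ) ≤ C * (m : ℝ) ^ 10 := by exact_mod_cast hle
        linarith
      have h4 := Set.ncard_le_ncard hsub (Finset.finite_toSet _)
      rw [Set.ncard_coe_finset] at h4
      exact_mod_cast h4.trans h2
  · intro ω hω
    obtain ⟨Q, hQ⟩ : ∃ Q : Set ℕ, Q = {N | ∀ n, 1 ≤ n → n ≤ N → ∃ a ∈ A, ∃ b ∈ A, a = b + n ∧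
        (a : ℝ) ≤ C * n * (N : ℝ) ^ (5 / 4 : ℝ)} := ⟨_, rfl⟩
    have hex : ∀ x : ℕ, 1 ≤ x → ∃ N ∈ Q, x ≤ N ∧ (N : ℝ) ≤ C * x ^ 6 := by
      intro x hx
      obtain ⟨m, hm1, hxm, hmx, h1, h2⟩ := hall x hx
      refine ⟨m ^ 8, ?_, hxm, ?_⟩
      · rw [hQ, Set.mem_ofPred_eq]
        intro n hn1 hn2
        obtain ⟨a, ha, b, hb, hab, hle⟩ := h1 n hn1 hn2
        refine ⟨a, ha, b, hb, hab, ?_⟩
        rw [pow8_54]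
        exact_mod_cast hle
      · exact_mod_cast hmx
    have hQinf : Q.Infinite := by
      refine Set.infinite_of_forall_exists_gt ?_
      intro x
      obtain ⟨N, hN, hxN, _⟩ := hex (x + 1) (by omega)
      exact ⟨N, hN, by omega⟩
    obtain ⟨G, hG, hGn, hev⟩ := hGRW A C (fun N => (N : ℝ) ^ (5 / 4 : ℝ)) Q hA hC0
      (fun N => Real.rpow_nonneg (Nat.cast_nonneg N) _) hQinf
      (fun N hN => by rw [hQ, Set.mem_ofPred_eq] at hN; exact hN) ω hω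
    refine ⟨G, hG, hGn, ?_⟩
    obtain ⟨N0, hN0⟩ := eventually_atTop.1 hev
    filter_upwards [eventually_ge_atTop (N0 + 1)] with x hx
    obtain ⟨N, hN, hxN, hNC⟩ := hex x (by omega)
    exact ⟨N, hxN, hNC, hN0 N (by omega) hN⟩

end Pool.Agent.H2.PDS
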