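import Pool.Agent.H2.PDS.Targets

/-!
# Row GRD of pds_modules: one greedy pair (helper2)
-/

set_option autoImplicit false

namespace Pool.Agent.H2.PDS

open Finset Filter Pool.Agent.H88.PD

lemma sid_add_pair {F : Finset ℕ} {b n : ℕ} (hn : 1 ≤ n) (hF : Sid F)
    (H1 : ∀ x ∈ F, ∀ y ∈ F, ∀ z ∈ F, b + z ≠ x + y)
    (H2 : ∀ x ∈ F, ∀ y ∈ F, ∀ z ∈ F, b + n + z ≠ x + y)
    (H3 : ∀ x ∈ F, ∀ y ∈ F, 2 * b ≠ x + y ∧ 2 * b + n ≠ x + y ∧ 2 * b + 2 * n ≠ x + y)
    (H4 : ∀ x ∈ F, b ≠ x + n ∧ b + 2 * n ≠ x)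
    (H5 : ∀ x ∈ F, ∀ y ∈ F, x ≠ y + n) : Sid (F ∪ {b, b + n}) := by
  have hsym : ∀ a ∈ F, ∀ d ∈ F, ∀ c ∈ F, ∀ e ∈ F, a + d = c + e →
      (a = c ∧ d = e) ∨ (a = e ∧ d = c) := by
    intro a ha d hd c hc e he h
    rcases lt_trichotomy e a with h1 | h1 | h1
    · have := hF a ha e he c hc d hd h1 h
      exact Or.inl ⟨this.1, this.2.symm⟩
    · exact Or.inr ⟨h1.symm, by omega⟩
    · have := hF e he a ha d hd c hc h1 (by omega)
      exact Or.inl ⟨this.2, this.1.symm⟩
  have key : ∀ a ∈ F ∪ {b, b + n}, ∀ d ∈ F ∪ {b, b + n}, ∀ c ∈ F ∪ {b, b + n},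
      ∀ e ∈ F ∪ {b, b + n}, a + d = c + e → (a = c ∧ d = e) ∨ (a = e ∧ d = c) := by
    intro a ha d hd c hc e he h
    simp only [mem_union, mem_insert, mem_singleton] at ha hd hc he
    rcases ha with ha | ha | ha <;> rcases hd with hd | hd | hd <;>
      rcases hc with hc | hc | hc <;> rcases he with he | he | he <;>
      first
      | exact hsym a ha d hd c hc e he h
      | omega
      | (exfalso; have h1 := H1 _ hc _ he _ hd; have h2 := H2 _ hc _ he _ hd; omega)
      | (exfalso; have h1 := H1 _ hc _ he _ ha; have h2 := H2 _ hc _ he _ ha; omega)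
      | (exfalso; have h1 := H1 _ ha _ hd _ he; have h2 := H2 _ ha _ hd _ he; omega)
      | (exfalso; have h1 := H1 _ ha _ hd _ hc; have h2 := H2 _ ha _ hd _ hc; omega)
      | (exfalso; have h1 := H3 _ hc _ he; omega)
      | (exfalso; have h1 := H3 _ ha _ hd; omega)
      | (have h1 := H5 _ hd _ he; have h2 := H5 _ he _ hd; omega)
      | (have h1 := H5 _ hd _ hc; have h2 := H5 _ hc _ hd; omega)
      | (have h1 := H5 _ ha _ he; have h2 := H5 _ he _ ha; omega)
      | (have h1 := H5 _ ha _ hc; have h2 := H5 _ hc _ ha; omega)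
      | (have h1 := H4 _ ha; omega)
      | (have h1 := H4 _ hd; omega)
      | (have h1 := H4 _ hc; omega)
      | (have h1 := H4 _ he; omega)
  intro a ha b' hb' c hc d hd hlt h
  rcases key a ha d hd c hc b' hb' h with h1 | h1
  · exact ⟨h1.1, h1.2.symm⟩
  · omega

theorem pf_GRD : T_GRD := by
  classical
  refine ⟨11, ?_⟩
  intro Y n F1 P hF1 hn hnY hS hR
  have hfY : F1.card ≤ Y := by
    have h1 : F1 ⊆ Icc 1 Y := fun a ha => mem_Icc.2 (hF1 a ha)
    have h2 := card_le_card h1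
    rw [Nat.card_Icc] at h2
    omega
  obtain ⟨Z, hZ⟩ : ∃ Z : Finset ℕ, Z =
      ((P ×ˢ range (2 * Y + 1)).image (fun q => q.1 + q.2 - Y)) ∪
      (((P ×ˢ F1) ×ˢ P).image (fun q => q.1.1 + q.1.2 - q.2)) ∪
      (((P ×ˢ P) ×ˢ F1).image (fun q => q.1.1 + q.1.2 - q.2)) ∪
      (((P ×ˢ P) ×ˢ P).image (fun q => q.1.1 + q.1.2 - q.2)) := ⟨_, rfl⟩
  obtain ⟨B, hB⟩ : ∃ B : Finset ℕ, B =
      ((P ×ˢ (F1 ∪ P)).image (fun q => (q.1 + q.2) / 2)) ∪
      ((P ×ˢ (F1 ∪ P)).image (fun q => (q.1 + q.2 - n) / 2)) ∪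
      ((P ×ˢ (F1 ∪ P)).image (fun q => (q.1 + q.2 - 2 * n) / 2)) := ⟨_, rfl⟩
  obtain ⟨E, hE⟩ : ∃ E : Finset ℕ, E =
      (P.image (fun q => q + n)) ∪ (P.image (fun q => q - 2 * n)) := ⟨_, rfl⟩
  have hZc : Z.card ≤ P.card * (2 * Y + 1) + P.card * F1.card * P.card +
      P.card * P.card * F1.card + P.card * P.card * P.card := by
    rw [hZ]
    refine (card_union_le _ _).trans ?_
    refine Nat.add_le_add ((card_union_le _ _).trans ?_) ?_
    · refine Nat.add_le_add ((card_union_le _ _).trans ?_) ?_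
      · refine Nat.add_le_add ?_ ?_
        · refine card_image_le.trans ?_
          rw [card_product, card_range]
        · refine card_image_le.trans ?_
          rw [card_product, card_product]
      · refine card_image_le.trans ?_
        rw [card_product, card_product]
    · refine card_image_le.trans ?_
      rw [card_product, card_product]
  have hBc : B.card ≤ 3 * (P.card * (F1.card + P.card)) := by
    have h0 : ∀ g : ℕ × ℕ → ℕ, ((P ×ˢ (F1 ∪ P)).image g).card ≤
        P.card * (F1.card + P.card) := by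
      intro g
      refine card_image_le.trans ?_
      rw [card_product]
      exact Nat.mul_le_mul_left _ (card_union_le _ _)
    rw [hB]
    refine (card_union_le _ _).trans ?_
    have h1 := card_union_le ((P ×ˢ (F1 ∪ P)).image (fun q => (q.1 + q.2) / 2))
      ((P ×ˢ (F1 ∪ P)).image (fun q => (q.1 + q.2 - n) / 2))
    have h2 := h0 (fun q => (q.1 + q.2) / 2)
    have h3 := h0 (fun q => (q.1 + q.2 - n) / 2)
    have h4 := h0 (fun q => (q.1 + q.2 - 2 * n) / 2)
    omega
  have hEc : E.card ≤ 2 * P.card := by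
    rw [hE]
    refine (card_union_le _ _).trans ?_
    have h1 : (P.image (fun q => q + n)).card ≤ P.card := card_image_le
    have h2 : (P.image (fun q => q - 2 * n)).card ≤ P.card := card_image_le
    omega
  obtain ⟨Fb, hFb⟩ : ∃ Fb : Finset ℕ, Fb = Z ∪ Z.image (fun q => q - n) ∪ B ∪ E := ⟨_, rfl⟩
  have hFbc : Fb.card ≤ 11 * (P.card * Y + P.card ^ 2 * F1.card + P.card ^ 3) := by
    have h1 : Fb.card ≤ 2 * Z.card + B.card + E.card := by
      rw [hFb]
      have e1 := card_union_le (Z ∪ Z.image (fun q => q - n) ∪ B) E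
      have e2 := card_union_le (Z ∪ Z.image (fun q => q - n)) B
      have e3 := card_union_le Z (Z.image (fun q => q - n))
      have e4 : (Z.image (fun q => q - n)).card ≤ Z.card := card_image_le
      omega
    have hP1 : P.card ≤ P.card * Y := Nat.le_mul_of_pos_right _ (by omega)
    have hP2 : P.card * F1.card ≤ P.card * Y := Nat.mul_le_mul_left _ hfY
    have hP3 : P.card * P.card ≤ P.card ^ 3 := by
      rcases Nat.eq_zero_or_pos P.card with h | h
      · rw [h]
        simp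
      · calc P.card * P.card = P.card * P.card * 1 := by ring
          _ ≤ P.card * P.card * P.card := Nat.mul_le_mul_left _ h
          _ = P.card ^ 3 := by ring
    nlinarith
  have hlt : Fb.card <
      (Ioc (2 * Y) (2 * Y + 1 + 11 * (P.card * Y + P.card ^ 2 * F1.card + P.card ^ 3))).card := by
    rw [Nat.card_Ioc]
    omega
  obtain ⟨b, hb, hbF⟩ := exists_mem_notMem_of_card_lt_card hlt
  rw [mem_Ioc] at hb
  have hbZ : b ∉ Z := fun h => hbF (by
    rw [hFb]
    exact mem_union_left _ (mem_union_left _ (mem_union_left _ h)))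
  have hbZn : ∀ z ∈ Z, b ≠ z - n := fun z hz h => hbF (by
    rw [hFb]
    exact mem_union_left _ (mem_union_left _ (mem_union_right _ (mem_image.2 ⟨z, hz, h.symm⟩))))
  have hbB : b ∉ B := fun h => hbF (by
    rw [hFb]
    exact mem_union_left _ (mem_union_right _ h))
  have hbE : b ∉ E := fun h => hbF (by
    rw [hFb]
    exact mem_union_right _ h)
  -- all values `x + y - z` above `2 Y` are in `Z`
  have hZmem0 : ∀ x ∈ P, ∀ y ∈ F1 ∪ P, ∀ z ∈ F1 ∪ P, ∀ s, s + z = x + y → s ∈ Z := by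
    intro x hx y hy z hz s hs
    rw [hZ]
    rcases mem_union.1 hy with hy | hy <;> rcases mem_union.1 hz with hz | hz
    · refine mem_union_left _ (mem_union_left _ (mem_union_left _ (mem_image.2
        ⟨(x, y + Y - z), mem_product.2 ⟨hx, mem_range.2 ?_⟩, ?_⟩)))
      · have := hF1 y hy
        show y + Y - z < 2 * Y + 1
        omega
      · have := hF1 y hy
        have := hF1 z hz
        show x + (y + Y - z) - Y = s
        omega
    · refine mem_union_left _ (mem_union_left _ (mem_union_right _ (mem_image.2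
        ⟨((x, y), z), mem_product.2 ⟨mem_product.2 ⟨hx, hy⟩, hz⟩, ?_⟩)))
      show x + y - z = s
      omega
    · refine mem_union_left _ (mem_union_right _ (mem_image.2
        ⟨((x, y), z), mem_product.2 ⟨mem_product.2 ⟨hx, hy⟩, hz⟩, ?_⟩))
      show x + y - z = s
      omega
    · refine mem_union_right _ (mem_image.2
        ⟨((x, y), z), mem_product.2 ⟨mem_product.2 ⟨hx, hy⟩, hz⟩, ?_⟩)
      show x + y - z = s
      omega
  have hZmem : ∀ x ∈ F1 ∪ P, ∀ y ∈ F1 ∪ P, ∀ z ∈ F1 ∪ P, ∀ s, 2 * Y < s → s + z = x + y →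
      s ∈ Z := by
    intro x hx y hy z hz s hs h
    rcases mem_union.1 hx with hx1 | hx1
    · rcases mem_union.1 hy with hy1 | hy1
      · have := hF1 x hx1
        have := hF1 y hy1
        omega
      · exact hZmem0 y hy1 x hx z hz s (by omega)
    · exact hZmem0 x hx1 y hy z hz s h
  have hBmem : ∀ x ∈ F1 ∪ P, ∀ y ∈ F1 ∪ P, ∀ s, 2 * Y < s → s = x + y →
      (s / 2 ∈ B ∧ (s - n) / 2 ∈ B ∧ (s - 2 * n) / 2 ∈ B) := by
    have h0 : ∀ x ∈ P, ∀ y ∈ F1 ∪ P,
        ((x + y) / 2 ∈ B ∧ (x + y - n) / 2 ∈ B ∧ (x + y - 2 * n) / 2 ∈ B) := by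
      intro x hx y hy
      rw [hB]
      refine ⟨?_, ?_, ?_⟩
      · exact mem_union_left _ (mem_union_left _ (mem_image.2 ⟨(x, y), mem_product.2 ⟨hx, hy⟩, rfl⟩))
      · exact mem_union_left _ (mem_union_right _ (mem_image.2 ⟨(x, y), mem_product.2 ⟨hx, hy⟩, rfl⟩))
      · exact mem_union_right _ (mem_image.2 ⟨(x, y), mem_product.2 ⟨hx, hy⟩, rfl⟩)
    intro x hx y hy s hs h
    rcases mem_union.1 hx with hx1 | hx1
    · rcases mem_union.1 hy with hy1 | hy1
      · have := hF1 x hx1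
        have := hF1 y hy1
        omega
      · rw [h, add_comm x y]
        exact h0 y hy1 x hx
    · rw [h]
      exact h0 x hx1 y hy
  refine ⟨b, hb.1, hb.2, sid_add_pair hn hS ?_ ?_ ?_ ?_ ?_⟩
  · intro x hx y hy z hz h
    exact hbZ (hZmem x hx y hy z hz b hb.1 h)
  · intro x hx y hy z hz h
    exact hbZn (b + n) (hZmem x hx y hy z hz (b + n) (by omega) h) (by omega)
  · intro x hx y hy
    refine ⟨fun h => ?_, fun h => ?_, fun h => ?_⟩
    · have h1 := (hBmem x hx y hy (2 * b) (by omega) h).1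
      have h2 : 2 * b / 2 = b := by omega
      rw [h2] at h1
      exact hbB h1
    · have h1 := (hBmem x hx y hy (2 * b + n) (by omega) h).2.1
      have h2 : (2 * b + n - n) / 2 = b := by omega
      rw [h2] at h1
      exact hbB h1
    · have h1 := (hBmem x hx y hy (2 * b + 2 * n) (by omega) h).2.2
      have h2 : (2 * b + 2 * n - 2 * n) / 2 = b := by omega
      rw [h2] at h1
      exact hbB h1
  · intro x hx
    rcases mem_union.1 hx with hx1 | hx1
    · have := hF1 x hx1
      omega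
    · refine ⟨fun h => hbE ?_, fun h => hbE ?_⟩
      · rw [hE]
        exact mem_union_left _ (mem_image.2 ⟨x, hx1, h.symm⟩)
      · rw [hE]
        exact mem_union_right _ (mem_image.2 ⟨x, hx1, by
          show x - 2 * n = b
          omega⟩)
  · intro x hx y hy h
    exact hR ⟨x, hx, y, hy, h⟩

end Pool.Agent.H2.PDS
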