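import Pool.Agent.H2.PDS.Targets

/-!
# Row GRW of pds_modules: from a perfect difference set to a function outside the class (helper2)
-/

set_option autoImplicit false

namespace Pool.Agent.H2.PDS

open Finset Filter Pool.Agent.H88.PD

open Classical in
/-- a slowly growing minorant of `ω` -/
noncomputable def lam (ω : ℕ → ℝ) (N : ℕ) : ℕ :=
  Nat.findGreatest (fun k => ∀ M, N ≤ M → (k : ℝ) ≤ ω M) N

lemma lam_spec (ω : ℕ → ℝ) (N : ℕ) (h : lam ω N ≠ 0) : ∀ M, N ≤ M → (lam ω N : ℝ) ≤ ω M := by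
  classical
  exact Nat.findGreatest_of_ne_zero (P := fun k : ℕ => ∀ M, N ≤ M → (k : ℝ) ≤ ω M) rfl h

lemma lam_mono (ω : ℕ → ℝ) : Monotone (lam ω) := by
  classical
  intro N N' hN
  by_cases h : lam ω N = 0
  · rw [h]
    exact Nat.zero_le _
  · have h1 := lam_spec ω N h
    exact Nat.le_findGreatest ((Nat.findGreatest_le N).trans hN)
      (fun M hM => h1 M (hN.trans hM))

lemma lam_tendsto {ω : ℕ → ℝ} (hω : Tendsto ω atTop atTop) (K : ℕ) :
    ∀ᶠ N in atTop, K ≤ lam ω N := by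
  classical
  obtain ⟨N0, hN0⟩ := eventually_atTop.1 (hω.eventually_ge_atTop (K : ℝ))
  filter_upwards [eventually_ge_atTop (max N0 K)] with N hN
  exact Nat.le_findGreatest ((le_max_right _ _).trans hN)
    (fun M hM => hN0 M (((le_max_left _ _).trans hN).trans hM))

theorem pf_GRW : T_GRW := by
  classical
  intro A C h Q hA hC hh hQ hrep ω hω
  obtain ⟨G, hG⟩ : ∃ G : ℕ → ℝ, ∀ n, G n =
      sInf ((fun N => (lam ω N : ℝ) * h N) '' {N | N ∈ Q ∧ n ≤ N}) := ⟨_, fun _ => rfl⟩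
  have hne : ∀ n, ((fun N => (lam ω N : ℝ) * h N) '' {N | N ∈ Q ∧ n ≤ N}).Nonempty := by
    intro n
    obtain ⟨N, hN, hnN⟩ := hQ.exists_gt n
    exact ⟨_, N, ⟨hN, hnN.le⟩, rfl⟩
  have hbdd : ∀ n, BddBelow ((fun N => (lam ω N : ℝ) * h N) '' {N | N ∈ Q ∧ n ≤ N}) := by
    intro n
    refine ⟨0, ?_⟩
    rintro _ ⟨N, _, rfl⟩
    exact mul_nonneg (Nat.cast_nonneg _) (hh N)
  refine ⟨G, ?_, ?_, ?_⟩
  · intro n n' hnn
    rw [hG, hG]
    refine csInf_le_csInf (hbdd n) (hne n') ?_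
    rintro _ ⟨N, hN, rfl⟩
    exact ⟨N, ⟨hN.1, hnn.trans hN.2⟩, rfl⟩
  · rintro ⟨_, hcl⟩
    obtain ⟨c, hc, hinf⟩ := hcl A hA
    obtain ⟨K, hK⟩ := exists_nat_gt (C / c)
    obtain ⟨n0, hn0⟩ := eventually_atTop.1 (lam_tendsto hω K)
    obtain ⟨n, ⟨hn1, a, ha, b, hb, hab, hle⟩, hn⟩ := hinf.exists_gt n0
    have hn' : (0 : ℝ) < n := by exact_mod_cast hn1
    have ha0 : (0 : ℝ) < a := by
      have : 0 < a := by omega
      exact_mod_cast this
    have hGn : (lam ω n : ℝ) * (a / (C * n)) ≤ G n := by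
      rw [hG]
      refine le_csInf (hne n) ?_
      rintro _ ⟨N, ⟨hNQ, hnN⟩, rfl⟩
      obtain ⟨a', ha', b', hb', hab', hle'⟩ := hrep N hNQ n hn1 hnN
      have haa := (pds_unique hA ha hb ha' hb' hn1 hab hab').1
      rw [← haa] at hle'
      have h1 : (a : ℝ) / (C * n) ≤ h N := by
        rw [div_le_iff₀ (by positivity)]
        linarith
      have h2 : (lam ω n : ℝ) ≤ lam ω N := by exact_mod_cast lam_mono ω hnN
      exact mul_le_mul h2 h1 (by positivity) (Nat.cast_nonneg _)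
    have h3 : (K : ℝ) ≤ lam ω n := by exact_mod_cast hn0 n hn.le
    have h4 : c * n * ((lam ω n : ℝ) * (a / (C * n))) ≤ a :=
      (mul_le_mul_of_nonneg_left hGn (by positivity)).trans hle
    have h5 : c * n * ((lam ω n : ℝ) * (a / (C * n))) = (c * lam ω n / C) * a := by
      field_simp
    rw [h5] at h4
    have h6 : c * lam ω n / C ≤ 1 := by
      by_contra h7
      push Not at h7
      have : 1 * (a : ℝ) < (c * lam ω n / C) * a := mul_lt_mul_of_pos_right h7 ha0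
      linarith
    rw [div_le_one hC] at h6
    have h7 : C < K * c := by
      rw [div_lt_iff₀ hc] at hK
      exact hK
    have h8 : (K : ℝ) * c ≤ c * lam ω n := by
      rw [mul_comm]
      exact mul_le_mul_of_nonneg_left h3 hc.le
    linarith
  · filter_upwards [lam_tendsto hω 1] with N hN hNQ
    rw [hG]
    refine (csInf_le (hbdd N) ⟨N, ⟨hNQ, le_rfl⟩, rfl⟩).trans ?_
    exact mul_le_mul_of_nonneg_right (lam_spec ω N (by omega) N le_rfl) (hh N)

end Pool.Agent.H2.PDS
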