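import Pool.Agent.H2.PDS.Targets

/-!
# Row REP of pds_modules: all greedy pairs (helper2)
-/

set_option autoImplicit false

namespace Pool.Agent.H2.PDS

open Finset Filter Pool.Agent.H88.PD

lemma mis_succ_le (F : Finset ℕ) (n : ℕ) : mis F n ≤ mis F (n + 1) := by
  classical
  unfold mis
  refine card_le_card ?_
  intro j hj
  rw [mem_filter, mem_Icc] at hj ⊢
  exact ⟨⟨hj.1.1, by omega⟩, hj.2⟩

lemma mis_succ_eq (F : Finset ℕ) (n : ℕ) (h : ¬ Rep F (n + 1)) :
    mis F n + 1 = mis F (n + 1) := by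
  classical
  unfold mis
  have h1 : (Icc 1 (n + 1)).filter (fun j => ¬ Rep F j) =
      insert (n + 1) ((Icc 1 n).filter (fun j => ¬ Rep F j)) := by
    ext j
    rw [mem_insert, mem_filter, mem_filter, mem_Icc, mem_Icc]
    constructor
    · rintro ⟨⟨h2, h3⟩, h4⟩
      rcases Nat.lt_or_ge n j with h5 | h5
      · left
        omega
      · exact Or.inr ⟨⟨h2, h5⟩, h4⟩
    · rintro (h2 | ⟨⟨h2, h3⟩, h4⟩)
      · rw [h2]
        exact ⟨⟨by omega, le_refl _⟩, h⟩
      · exact ⟨⟨h2, by omega⟩, h4⟩
  rw [h1, card_insert_of_notMem]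
  rw [mem_filter, mem_Icc]
  rintro ⟨⟨_, h2⟩, _⟩
  omega

theorem pf_REP (hGRD : T_GRD) : T_REP := by
  classical
  obtain ⟨K0, hK0⟩ := hGRD
  refine ⟨8 * K0 + 4, ?_⟩
  intro Y N F1 hF1 hY hNY hS
  obtain ⟨B, hB⟩ : ∃ B : ℕ → ℕ, ∀ R, B R = 4 * Y + K0 * (2 * R * Y + 4 * R ^ 2 * F1.card +
      8 * R ^ 3) := ⟨_, fun _ => rfl⟩
  have hBmono : ∀ R R', R ≤ R' → B R ≤ B R' := by
    intro R R' h
    rw [hB, hB]
    gcongr
  have hBK : ∀ R, B R ≤ (8 * K0 + 4) * (Y + R * Y + R ^ 2 * F1.card + R ^ 3) := by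
    intro R
    rw [hB]
    have h1 : K0 * (2 * R * Y + 4 * R ^ 2 * F1.card + 8 * R ^ 3) ≤
        K0 * (8 * (Y + R * Y + R ^ 2 * F1.card + R ^ 3)) := by
      apply Nat.mul_le_mul_left
      nlinarith [Nat.zero_le (R * Y), Nat.zero_le (R ^ 2 * F1.card)]
    have h2 : (8 * K0 + 4) * (Y + R * Y + R ^ 2 * F1.card + R ^ 3) =
        K0 * (8 * (Y + R * Y + R ^ 2 * F1.card + R ^ 3)) +
          4 * (Y + R * Y + R ^ 2 * F1.card + R ^ 3) := by ring
    rw [h2]
    have h3 : Y ≤ Y + R * Y + R ^ 2 * F1.card + R ^ 3 := by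
      have := Nat.zero_le (R * Y)
      omega
    omega
  have hYB : ∀ R, 4 * Y ≤ B R := by
    intro R
    rw [hB]
    omega
  have main : ∀ n, n ≤ N → ∃ P : Finset ℕ, Sid (F1 ∪ P) ∧ P.card ≤ 2 * mis F1 n ∧
      (∀ a ∈ P, 1 ≤ a ∧ a ≤ B (mis F1 n)) ∧
      ∀ j, 1 ≤ j → j ≤ n → ∃ a ∈ F1 ∪ P, ∃ b ∈ F1 ∪ P, a = b + j ∧ a ≤ B (mis F1 j) := by
    intro n
    induction n with
    | zero =>
      intro _
      refine ⟨∅, ?_, ?_, ?_, ?_⟩
      · rw [union_empty]
        exact hS
      · simp
      · intro a ha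
        exact absurd ha (notMem_empty a)
      · intro j hj1 hj2
        omega
    | succ n ih =>
      intro hn
      obtain ⟨P, hP1, hP2, hP3, hP4⟩ := ih (by omega)
      have hmono := hBmono _ _ (mis_succ_le F1 n)
      by_cases hR : Rep (F1 ∪ P) (n + 1)
      · refine ⟨P, hP1, ?_, ?_, ?_⟩
        · have := mis_succ_le F1 n
          omega
        · intro a ha
          have := hP3 a ha
          exact ⟨this.1, this.2.trans hmono⟩
        · intro j hj1 hj2
          rcases Nat.lt_or_ge n j with h1 | h1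
          · have hj : j = n + 1 := by omega
            rw [hj]
            obtain ⟨a, ha, b, hb, hab⟩ := hR
            refine ⟨a, ha, b, hb, hab, ?_⟩
            rcases mem_union.1 ha with h2 | h2
            · have h3 := hF1 a h2
              have h4 := hYB (mis F1 (n + 1))
              omega
            · exact (hP3 a h2).2.trans hmono
          · exact hP4 j hj1 h1
      · have hR1 : ¬ Rep F1 (n + 1) := by
          rintro ⟨a, ha, b, hb, hab⟩
          exact hR ⟨a, mem_union_left _ ha, b, mem_union_left _ hb, hab⟩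
        have hm := mis_succ_eq F1 n hR1
        obtain ⟨b, hb1, hb2, hb3⟩ := hK0 Y (n + 1) F1 P hF1 (by omega) (by omega) hP1 hR
        have hbB : b + (n + 1) ≤ B (mis F1 (n + 1)) := by
          have h1 : K0 * (P.card * Y + P.card ^ 2 * F1.card + P.card ^ 3) ≤
              K0 * (2 * mis F1 (n + 1) * Y + 4 * mis F1 (n + 1) ^ 2 * F1.card +
                8 * mis F1 (n + 1) ^ 3) := by
            apply Nat.mul_le_mul_left
            have h2 : P.card ≤ 2 * mis F1 (n + 1) := by omega
            have h3 : P.card ^ 2 ≤ (2 * mis F1 (n + 1)) ^ 2 := Nat.pow_le_pow_left h2 2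
            have h4 : P.card ^ 3 ≤ (2 * mis F1 (n + 1)) ^ 3 := Nat.pow_le_pow_left h2 3
            have h5 : P.card * Y ≤ 2 * mis F1 (n + 1) * Y := Nat.mul_le_mul_right _ h2
            have h6 : P.card ^ 2 * F1.card ≤ (2 * mis F1 (n + 1)) ^ 2 * F1.card :=
              Nat.mul_le_mul_right _ h3
            have h7 : (2 * mis F1 (n + 1)) ^ 2 * F1.card = 4 * mis F1 (n + 1) ^ 2 * F1.card := by
              ring
            have h8 : (2 * mis F1 (n + 1)) ^ 3 = 8 * mis F1 (n + 1) ^ 3 := by ring
            omega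
          rw [hB]
          omega
        refine ⟨P ∪ {b, b + (n + 1)}, ?_, ?_, ?_, ?_⟩
        · rw [← union_assoc]
          exact hb3
        · have h1 : ({b, b + (n + 1)} : Finset ℕ).card ≤ 2 := card_le_two
          have h2 := card_union_le P {b, b + (n + 1)}
          omega
        · intro a ha
          rcases mem_union.1 ha with h1 | h1
          · have := hP3 a h1
            exact ⟨this.1, this.2.trans hmono⟩
          · rw [mem_insert, mem_singleton] at h1
            rcases h1 with h1 | h1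
            · rw [h1]
              exact ⟨by omega, by omega⟩
            · rw [h1]
              exact ⟨by omega, hbB⟩
        · intro j hj1 hj2
          rcases Nat.lt_or_ge n j with h1 | h1
          · have hj : j = n + 1 := by omega
            rw [hj]
            refine ⟨b + (n + 1), ?_, b, ?_, rfl, hbB⟩
            · refine mem_union_right _ (mem_union_right _ ?_)
              rw [mem_insert, mem_singleton]
              exact Or.inr rfl
            · refine mem_union_right _ (mem_union_right _ ?_)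
              rw [mem_insert, mem_singleton]
              exact Or.inl rfl
          · obtain ⟨a, ha, b', hb', hab, hle⟩ := hP4 j hj1 h1
            rw [← union_assoc]
            exact ⟨a, mem_union_left _ ha, b', mem_union_left _ hb', hab, hle⟩
  obtain ⟨P, hP1, hP2, hP3, hP4⟩ := main N le_rfl
  refine ⟨F1 ∪ P, subset_union_left, hP1, ?_, ?_, ?_⟩
  · intro a ha
    rcases mem_union.1 ha with h | h
    · have h1 := hF1 a h
      refine ⟨h1.1, ?_⟩
      have h2 := hYB (mis F1 N)
      have h3 := hBK (mis F1 N)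
      omega
    · have h1 := hP3 a h
      exact ⟨h1.1, h1.2.trans (hBK _)⟩
  · have := card_union_le F1 P
    omega
  · intro n hn1 hn2
    obtain ⟨a, ha, b, hb, hab, hle⟩ := hP4 n hn1 hn2
    exact ⟨a, ha, b, hb, hab, hle.trans (hBK _)⟩

end Pool.Agent.H2.PDS
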