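import Pool.Agent.H2.PDS.Targets

/-!
# Row RUZ of pds_modules: the set of Ruzsa modulo `p (p - 1)` (helper2)
-/

set_option autoImplicit false

namespace Pool.Agent.H2.PDS

open Finset Filter Pool.Agent.H88.PD

theorem pf_RUZ : T_RUZ := by
  classical
  intro p hp hp3
  have : Fact p.Prime := ⟨hp⟩
  obtain ⟨g, hg⟩ := IsCyclic.exists_generator (α := (ZMod p)ˣ)
  have hord : orderOf g = p - 1 := by
    rw [orderOf_eq_card_of_forall_mem_zpowers hg, Nat.card_eq_fintype_card, ZMod.card_units]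
  have hco : Nat.Coprime (p - 1) p := by
    rw [Nat.coprime_comm]
    refine (Nat.Prime.coprime_iff_not_dvd hp).2 ?_
    intro h
    have := Nat.le_of_dvd (by omega) h
    omega
  have hpow : ∀ u : (ZMod p)ˣ, ∃ j, j < p - 1 ∧ g ^ j = u := by
    intro u
    have h1 : u ∈ Submonoid.powers g := mem_powers_iff_mem_zpowers.2 (hg u)
    obtain ⟨k, hk⟩ := h1
    refine ⟨k % (p - 1), Nat.mod_lt _ (by omega), ?_⟩
    rw [← hk, ← hord]
    exact pow_mod_orderOf g k
  obtain ⟨x, hx⟩ : ∃ x : ℕ → ℕ, ∀ i, x i =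
      (Nat.chineseRemainder hco i ((g ^ i : (ZMod p)ˣ) : ZMod p).val : ℕ) := ⟨_, fun _ => rfl⟩
  have hx1 : ∀ i, x i ≡ i [MOD p - 1] := by
    intro i
    rw [hx]
    exact (Nat.chineseRemainder hco i ((g ^ i : (ZMod p)ˣ) : ZMod p).val).2.1
  have hx2 : ∀ i, ((x i : ℕ) : ZMod p) = ((g ^ i : (ZMod p)ˣ) : ZMod p) := by
    intro i
    have h1 : x i ≡ ((g ^ i : (ZMod p)ˣ) : ZMod p).val [MOD p] := by
      rw [hx]
      exact (Nat.chineseRemainder hco i ((g ^ i : (ZMod p)ˣ) : ZMod p).val).2.2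
    have h2 := (ZMod.natCast_eq_natCast_iff _ _ _).2 h1
    rw [h2, ZMod.natCast_zmod_val]
  have hxlt : ∀ i, x i < p * (p - 1) := by
    intro i
    rw [hx, mul_comm]
    exact Nat.chineseRemainder_lt_mul hco _ _ (by omega) (by omega)
  have hinj : ∀ i < p - 1, ∀ j < p - 1,
      ((g ^ i : (ZMod p)ˣ) : ZMod p) = ((g ^ j : (ZMod p)ˣ) : ZMod p) → i = j := by
    intro i hi j hj h
    have h1 : g ^ i = g ^ j := Units.ext h
    rw [pow_eq_pow_iff_modEq, hord] at h1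
    have h2 : i % (p - 1) = j % (p - 1) := h1
    rwa [Nat.mod_eq_of_lt hi, Nat.mod_eq_of_lt hj] at h2
  refine ⟨(range (p - 1)).image x, ?_, ?_, ?_, ?_⟩
  · intro a ha
    rw [mem_image] at ha
    obtain ⟨i, _, rfl⟩ := ha
    exact mem_range.2 (hxlt i)
  · refine card_image_le.trans ?_
    rw [card_range]
    omega
  · intro a ha b hb c hc d hd hne h
    rw [mem_image] at ha hb hc hd
    obtain ⟨i, hi, rfl⟩ := ha
    obtain ⟨j, hj, rfl⟩ := hb
    obtain ⟨k, hk, rfl⟩ := hc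
    obtain ⟨l, hl, rfl⟩ := hd
    rw [mem_range] at hi hj hk hl
    have hmp : x i + x l ≡ x k + x j [MOD p] := h.of_mul_right (p - 1)
    have hmq : x i + x l ≡ x k + x j [MOD p - 1] := h.of_mul_left p
    have e1 : ((g ^ i : (ZMod p)ˣ) : ZMod p) + ((g ^ l : (ZMod p)ˣ) : ZMod p) =
        ((g ^ k : (ZMod p)ˣ) : ZMod p) + ((g ^ j : (ZMod p)ˣ) : ZMod p) := by
      have := (ZMod.natCast_eq_natCast_iff _ _ _).2 hmp
      push_cast at this
      rw [hx2, hx2, hx2, hx2] at this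
      exact this
    have e2 : ((g ^ i : (ZMod p)ˣ) : ZMod p) * ((g ^ l : (ZMod p)ˣ) : ZMod p) =
        ((g ^ k : (ZMod p)ˣ) : ZMod p) * ((g ^ j : (ZMod p)ˣ) : ZMod p) := by
      have h1 : i + l ≡ k + j [MOD p - 1] :=
        (((hx1 i).add (hx1 l)).symm.trans hmq).trans ((hx1 k).add (hx1 j))
      rw [← hord, ← pow_eq_pow_iff_modEq, pow_add, pow_add] at h1
      have h2 := congrArg (Units.val) h1
      rwa [Units.val_mul, Units.val_mul] at h2
    have e3 : (((g ^ i : (ZMod p)ˣ) : ZMod p) - ((g ^ k : (ZMod p)ˣ) : ZMod p)) *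
        (((g ^ i : (ZMod p)ˣ) : ZMod p) - ((g ^ j : (ZMod p)ˣ) : ZMod p)) = 0 := by
      linear_combination ((g ^ i : (ZMod p)ˣ) : ZMod p) * e1 - e2
    rcases mul_eq_zero.1 e3 with h1 | h1
    · have h2 := hinj i hi k hk (sub_eq_zero.1 h1)
      have h3 : ((g ^ l : (ZMod p)ˣ) : ZMod p) = ((g ^ j : (ZMod p)ˣ) : ZMod p) := by
        rw [h2] at e1
        exact add_left_cancel e1
      have h4 := hinj l hl j hj h3
      rw [h2, h4]
      exact ⟨rfl, rfl⟩
    · have h2 := hinj i hi j hj (sub_eq_zero.1 h1)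
      rw [h2] at hne
      exact absurd rfl hne
  · intro n hn1 hn2
    have hgn : ((g ^ n : (ZMod p)ˣ) : ZMod p) - 1 ≠ 0 := by
      intro h
      have h1 : g ^ n = 1 := Units.ext (by rw [Units.val_one]; exact sub_eq_zero.1 h)
      rw [← orderOf_dvd_iff_pow_eq_one, hord] at h1
      exact hn2 h1
    have hn0 : (n : ZMod p) ≠ 0 := by
      rw [Ne, ZMod.natCast_eq_zero_iff]
      exact hn1
    obtain ⟨j, hj, hju⟩ := hpow (Units.mk0 ((n : ZMod p) / (((g ^ n : (ZMod p)ˣ) : ZMod p) - 1))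
      (div_ne_zero hn0 hgn))
    have hju' : ((g ^ j : (ZMod p)ˣ) : ZMod p) * (((g ^ n : (ZMod p)ˣ) : ZMod p) - 1) = n := by
      rw [hju, Units.val_mk0]
      exact div_mul_cancel₀ _ hgn
    refine ⟨x ((j + n) % (p - 1)), mem_image.2 ⟨_, mem_range.2 (Nat.mod_lt _ (by omega)), rfl⟩,
      x j, mem_image.2 ⟨j, mem_range.2 hj, rfl⟩, ?_⟩
    rw [mul_comm, ← Nat.modEq_and_modEq_iff_modEq_mul hco]
    constructor
    · exact ((hx1 _).trans (Nat.mod_modEq _ _)).trans ((hx1 j).symm.add_right n)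
    · rw [← ZMod.natCast_eq_natCast_iff]
      push_cast
      rw [hx2, hx2]
      have h1 : g ^ ((j + n) % (p - 1)) = g ^ j * g ^ n := by
        rw [← pow_add, ← hord, pow_mod_orderOf]
      rw [h1, Units.val_mul]
      linear_combination hju'

end Pool.Agent.H2.PDS
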