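import Pool.Agent.H2.PDS.Targets

/-!
# Row TRA of pds_modules: a translate of a modular set loses few differences (helper2)
-/

set_option autoImplicit false

namespace Pool.Agent.H2.PDS

open Finset Filter Pool.Agent.H88.PD

/-- the translate -/
def tr (v : ℕ) (S : Finset ℕ) (t : ℕ) : Finset ℕ := S.image (fun s => (s + t) % v)

lemma sid_tr {v : ℕ} {S : Finset ℕ} (hS : SidMod v S) (t : ℕ) : Sid (tr v S t) := by
  intro a ha b hb c hc d hd hlt h
  unfold tr at ha hb hc hd
  rw [mem_image] at ha hb hc hd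
  obtain ⟨sa, ha, rfl⟩ := ha
  obtain ⟨sb, hb, rfl⟩ := hb
  obtain ⟨sc, hc, rfl⟩ := hc
  obtain ⟨sd, hd, rfl⟩ := hd
  have hne : sa ≠ sb := by
    intro h1
    rw [h1] at hlt
    exact lt_irrefl _ hlt
  have h1 : (sa + t) + (sd + t) ≡ (sc + t) + (sb + t) [MOD v] := by
    have e1 : (sa + t) + (sd + t) ≡ (sa + t) % v + (sd + t) % v [MOD v] :=
      ((Nat.mod_modEq _ _).add (Nat.mod_modEq _ _)).symm
    have e2 : (sc + t) + (sb + t) ≡ (sc + t) % v + (sb + t) % v [MOD v] :=
      ((Nat.mod_modEq _ _).add (Nat.mod_modEq _ _)).symm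
    rw [h] at e1
    exact e1.trans e2.symm
  have h2 : sa + sd + (t + t) ≡ sc + sb + (t + t) [MOD v] := by
    have e1 : (sa + t) + (sd + t) = sa + sd + (t + t) := by ring
    have e2 : (sc + t) + (sb + t) = sc + sb + (t + t) := by ring
    rw [e1, e2] at h1
    exact h1
  have h3 := hS sa ha sb hb sc hc sd hd hne (Nat.ModEq.add_right_cancel' _ h2)
  rw [h3.1, h3.2]
  exact ⟨rfl, rfl⟩

lemma rep_tr {v : ℕ} {S : Finset ℕ} {a b j t : ℕ} (ha : a ∈ S) (hb : b ∈ S)
    (h : a ≡ b + j [MOD v]) (hlt : (b + t) % v + j < v) : Rep (tr v S t) j := by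
  refine ⟨(a + t) % v, mem_image.2 ⟨a, ha, rfl⟩, (b + t) % v, mem_image.2 ⟨b, hb, rfl⟩, ?_⟩
  have h1 : a + t ≡ (b + t) % v + j [MOD v] := by
    have e1 : a + t ≡ b + j + t [MOD v] := h.add_right t
    have e2 : b + j + t = b + t + j := by ring
    rw [e2] at e1
    exact e1.trans ((Nat.mod_modEq (b + t) v).symm.add_right j)
  have h2 : (a + t) % v = ((b + t) % v + j) % v := h1
  rw [h2, Nat.mod_eq_of_lt hlt]

lemma card_bad {v b j : ℕ} (hv : 0 < v) (hj : j ≤ v) :
    ((range v).filter (fun t => v - j ≤ (b + t) % v)).card ≤ j := by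
  have h1 : ((range v).filter (fun t => v - j ≤ (b + t) % v)).card ≤ (Ico (v - j) v).card := by
    refine card_le_card_of_injOn (fun t => (b + t) % v) ?_ ?_
    · intro t ht
      rw [mem_coe, mem_filter] at ht
      rw [mem_coe, mem_Ico]
      exact ⟨ht.2, Nat.mod_lt _ hv⟩
    · intro t ht s hs hts
      rw [mem_coe, mem_filter, mem_range] at ht hs
      have h2 : b + t ≡ b + s [MOD v] := hts
      have h3 : t ≡ s [MOD v] := Nat.ModEq.add_left_cancel' b h2
      have h4 : t % v = s % v := h3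
      rw [Nat.mod_eq_of_lt ht.1, Nat.mod_eq_of_lt hs.1] at h4
      exact h4
  rw [Nat.card_Ico] at h1
  omega

theorem pf_TRA : T_TRA := by
  classical
  intro v N S hSv hS hN
  rcases Nat.eq_zero_or_pos v with hv0 | hv
  · refine ⟨∅, empty_subset _, by simp, ?_, ?_⟩
    · intro a ha
      exact absurd ha (notMem_empty a)
    · intro n _
      rw [hv0, zero_mul]
      exact Nat.zero_le _
  have hv' : (0 : ℝ) < v := by exact_mod_cast hv
  obtain ⟨L, hL⟩ : ∃ L : ℕ → ℕ → ℝ, ∀ t j, L t j =
      if (RepMod v S j ∧ ¬ Rep (tr v S t) j) then (1 / (j : ℝ)) else 0 := ⟨_, fun _ _ => rfl⟩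
  have hL0 : ∀ t j, 0 ≤ L t j := by
    intro t j
    rw [hL]
    split_ifs
    · positivity
    · exact le_rfl
  have hsum : ∑ t ∈ range v, ∑ j ∈ Icc 1 N, L t j ≤ ∑ t ∈ range v, (N : ℝ) / v := by
    rw [sum_comm, sum_const, card_range, nsmul_eq_mul, mul_div_cancel₀ _ hv'.ne']
    have h1 : ∀ j ∈ Icc 1 N, ∑ t ∈ range v, L t j ≤ 1 := by
      intro j hj
      rw [mem_Icc] at hj
      have hj0 : (0 : ℝ) < j := by exact_mod_cast hj.1
      by_cases hR : RepMod v S j
      · obtain ⟨a, ha, b, hb, hab⟩ := hR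
        have h2 : ∀ t ∈ range v, L t j ≤ if v - j ≤ (b + t) % v then (1 / (j : ℝ)) else 0 := by
          intro t _
          rw [hL]
          by_cases h3 : v - j ≤ (b + t) % v
          · rw [if_pos h3]
            split_ifs
            · exact le_rfl
            · positivity
          · rw [if_neg h3, if_neg]
            rintro ⟨_, h4⟩
            exact h4 (rep_tr ha hb hab (by omega))
        refine (sum_le_sum h2).trans ?_
        rw [← sum_filter, sum_const, nsmul_eq_mul]
        have h5 := card_bad (b := b) hv (hj.2.trans hN)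
        have h6 : (((range v).filter (fun t => v - j ≤ (b + t) % v)).card : ℝ) ≤ j := by
          exact_mod_cast h5
        calc (((range v).filter (fun t => v - j ≤ (b + t) % v)).card : ℝ) * (1 / (j : ℝ))
            ≤ (j : ℝ) * (1 / (j : ℝ)) := mul_le_mul_of_nonneg_right h6 (by positivity)
          _ = 1 := by field_simp
      · have h2 : ∑ t ∈ range v, L t j = 0 := by
          refine sum_eq_zero ?_
          intro t _
          rw [hL, if_neg]
          rintro ⟨h3, _⟩
          exact hR h3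
        rw [h2]
        exact zero_le_one
    calc ∑ j ∈ Icc 1 N, ∑ t ∈ range v, L t j ≤ ∑ j ∈ Icc 1 N, (1 : ℝ) := sum_le_sum h1
      _ = N := by simp
  obtain ⟨t, _, ht⟩ := exists_le_of_sum_le (nonempty_range_iff.2 hv.ne') hsum
  refine ⟨tr v S t, ?_, card_image_le, sid_tr hS t, ?_⟩
  · intro a ha
    unfold tr at ha
    rw [mem_image] at ha
    obtain ⟨s, _, rfl⟩ := ha
    exact mem_range.2 (Nat.mod_lt _ hv)
  · intro n hn
    rcases Nat.eq_zero_or_pos n with hn0 | hn0
    · rw [hn0]
      simp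
    have hn0' : (0 : ℝ) < n := by exact_mod_cast hn0
    have h1 : (((Icc 1 n).filter (fun j => RepMod v S j ∧ ¬ Rep (tr v S t) j)).card : ℝ) ≤
        n * ∑ j ∈ Icc 1 N, L t j := by
      have h2 : (((Icc 1 n).filter (fun j => RepMod v S j ∧ ¬ Rep (tr v S t) j)).card : ℝ) =
          ∑ j ∈ (Icc 1 n).filter (fun j => RepMod v S j ∧ ¬ Rep (tr v S t) j), (1 : ℝ) := by
        simp
      rw [h2]
      have h3 : ∑ j ∈ (Icc 1 n).filter (fun j => RepMod v S j ∧ ¬ Rep (tr v S t) j), (1 : ℝ) ≤
          ∑ j ∈ (Icc 1 n).filter (fun j => RepMod v S j ∧ ¬ Rep (tr v S t) j), n * L t j := by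
        refine sum_le_sum ?_
        intro j hj
        rw [mem_filter, mem_Icc] at hj
        rw [hL, if_pos hj.2]
        have hj0 : (0 : ℝ) < j := by exact_mod_cast hj.1.1
        have hjn : (j : ℝ) ≤ n := by exact_mod_cast hj.1.2
        rw [mul_one_div, le_div_iff₀ hj0, one_mul]
        exact hjn
      refine h3.trans ?_
      rw [← mul_sum]
      apply mul_le_mul_of_nonneg_left _ hn0'.le
      refine sum_le_sum_of_subset_of_nonneg ?_ (fun j _ _ => hL0 t j)
      intro j hj
      rw [mem_filter, mem_Icc] at hj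
      rw [mem_Icc]
      exact ⟨hj.1.1, hj.1.2.trans hn⟩
    have h4 : (v : ℝ) * ((Icc 1 n).filter (fun j => RepMod v S j ∧ ¬ Rep (tr v S t) j)).card ≤
        n * N := by
      calc (v : ℝ) * ((Icc 1 n).filter (fun j => RepMod v S j ∧ ¬ Rep (tr v S t) j)).card
          ≤ v * (n * (N / v)) := by
            apply mul_le_mul_of_nonneg_left _ hv'.le
            exact h1.trans (mul_le_mul_of_nonneg_left ht hn0'.le)
        _ = n * N := by field_simp
    exact_mod_cast h4

end Pool.Agent.H2.PDS
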