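import Pool.Agent.H88.PD.Basic

/-!
MP_35c1fe_nt: a perfect difference set whose representing elements are small at infinitely many
scales.  Definitions and targets of the board pds_modules.
-/

set_option autoImplicit false

namespace Pool.Agent.H2.PDS

open Finset Filter Pool.Agent.H88.PD

/-- all positive differences of `F` are distinct -/
def Sid (F : Finset ℕ) : Prop :=
  ∀ a ∈ F, ∀ b ∈ F, ∀ c ∈ F, ∀ d ∈ F, b < a → a + d = c + b → a = c ∧ b = d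

/-- `n` is a difference of two elements of `F` -/
def Rep (F : Finset ℕ) (n : ℕ) : Prop := ∃ a ∈ F, ∃ b ∈ F, a = b + n

open Classical in
/-- the number of the `j` with `1 ≤ j ≤ n` which are not differences of `F` -/
noncomputable def mis (F : Finset ℕ) (n : ℕ) : ℕ :=
  ((Icc 1 n).filter (fun j => ¬ Rep F j)).card

/-- all differences of `S` are distinct modulo `v` -/
def SidMod (v : ℕ) (S : Finset ℕ) : Prop :=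
  ∀ a ∈ S, ∀ b ∈ S, ∀ c ∈ S, ∀ d ∈ S, a ≠ b → a + d ≡ c + b [MOD v] → a = c ∧ b = d

/-- `n` is a difference of two elements of `S` modulo `v` -/
def RepMod (v : ℕ) (S : Finset ℕ) (n : ℕ) : Prop := ∃ a ∈ S, ∃ b ∈ S, a ≡ b + n [MOD v]

/-- the set of Ruzsa modulo `p (p - 1)` -/
def T_RUZ : Prop := ∀ p : ℕ, p.Prime → 3 ≤ p → ∃ S : Finset ℕ, S ⊆ range (p * (p - 1)) ∧
  S.card ≤ p ∧ SidMod (p * (p - 1)) S ∧
  ∀ n, ¬ p ∣ n → ¬ (p - 1) ∣ n → RepMod (p * (p - 1)) S n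

open Classical in
/-- a translate of a modular set loses few differences -/
def T_TRA : Prop := ∀ (v N : ℕ) (S : Finset ℕ), S ⊆ range v → SidMod v S → N ≤ v →
  ∃ T : Finset ℕ, T ⊆ range v ∧ T.card ≤ S.card ∧ Sid T ∧ ∀ n ≤ N,
    v * ((Icc 1 n).filter (fun j => RepMod v S j ∧ ¬ Rep T j)).card ≤ n * N

open Classical in
/-- deletion of the differences of `F` from `T` -/
def T_DEL : Prop := ∀ F T : Finset ℕ, Sid T → ∃ T' : Finset ℕ, T' ⊆ T ∧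
  (∀ a ∈ T', ∀ b ∈ T', b < a → ¬ Rep F (a - b)) ∧
  ∀ n, ((Icc 1 n).filter (fun j => Rep T j ∧ ¬ Rep T' j ∧ ¬ Rep F j)).card ≤
    2 * F.card ^ 2 * (Nat.sqrt (2 * n) + 1)

/-- a new block with few missing differences -/
def T_BLK : Prop := ∃ C : ℕ, ∀ (m : ℕ) (F : Finset ℕ), 1 ≤ m → Sid F →
  (∀ a ∈ F, 1 ≤ a ∧ a ≤ m ^ 10) → F.card ≤ m →
  ∃ F1 : Finset ℕ, F ⊆ F1 ∧ Sid F1 ∧ (∀ a ∈ F1, 1 ≤ a ∧ a ≤ C * m ^ 10) ∧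
    F1.card ≤ C * m ^ 5 ∧ ∀ n ≤ m ^ 8, mis F1 n ^ 2 ≤ C * m ^ 4 * n

/-- one greedy pair -/
def T_GRD : Prop := ∃ K : ℕ, ∀ (Y n : ℕ) (F1 P : Finset ℕ), (∀ a ∈ F1, 1 ≤ a ∧ a ≤ Y) →
  1 ≤ n → n ≤ Y → Sid (F1 ∪ P) → ¬ Rep (F1 ∪ P) n →
  ∃ b, 2 * Y < b ∧ b ≤ 2 * Y + 1 + K * (P.card * Y + P.card ^ 2 * F1.card + P.card ^ 3) ∧
    Sid (F1 ∪ P ∪ {b, b + n})

/-- all greedy pairs -/
def T_REP : Prop := ∃ K : ℕ, ∀ (Y N : ℕ) (F1 : Finset ℕ), (∀ a ∈ F1, 1 ≤ a ∧ a ≤ Y) →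
  1 ≤ Y → N ≤ Y → Sid F1 →
  ∃ F2 : Finset ℕ, F1 ⊆ F2 ∧ Sid F2 ∧
    (∀ a ∈ F2, 1 ≤ a ∧
      a ≤ K * (Y + mis F1 N * Y + mis F1 N ^ 2 * F1.card + mis F1 N ^ 3)) ∧
    F2.card ≤ F1.card + 2 * mis F1 N ∧
    ∀ n, 1 ≤ n → n ≤ N → ∃ a ∈ F2, ∃ b ∈ F2, a = b + n ∧
      a ≤ K * (Y + mis F1 n * Y + mis F1 n ^ 2 * F1.card + mis F1 n ^ 3)

open Classical in
/-- the extension step -/
def T_EXT : Prop := ∃ C : ℕ, ∀ (m : ℕ) (F : Finset ℕ), 1 ≤ m → Sid F →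
  (∀ a ∈ F, 1 ≤ a ∧ a ≤ m ^ 10) → F.card ≤ m →
  ∃ F' : Finset ℕ, F ⊆ F' ∧ Sid F' ∧ (∀ a ∈ F', 1 ≤ a ∧ a ≤ C * m ^ 18) ∧
    F'.card ≤ C * m ^ 6 ∧
    (∀ n, 1 ≤ n → n ≤ m ^ 8 → ∃ a ∈ F', ∃ b ∈ F', a = b + n ∧ a ≤ C * n * m ^ 10) ∧
    ((Icc 1 (m ^ 8)).filter
      (fun n => ¬ ∃ a ∈ F', ∃ b ∈ F', a = b + n ∧ a ≤ C * m ^ 10)).card ≤ C * m ^ 6

open Classical in
/-- the perfect difference set -/
def T_UNI : Prop := ∃ C : ℕ, 1 ≤ C ∧ ∃ A : Set ℕ, IsPerfectDifferenceSet A ∧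
  ∀ x, 1 ≤ x → ∃ m : ℕ, 1 ≤ m ∧ x ≤ m ^ 8 ∧ m ^ 8 ≤ C * x ^ 6 ∧
    (∀ n, 1 ≤ n → n ≤ m ^ 8 → ∃ a ∈ A, ∃ b ∈ A, a = b + n ∧ a ≤ C * n * m ^ 10) ∧
    ((Icc 1 (m ^ 8)).filter
      (fun n => ¬ ∃ a ∈ A, ∃ b ∈ A, a = b + n ∧ a ≤ C * m ^ 10)).card ≤ C * m ^ 6

/-- The class of the question: the non-decreasing functions `G` such that for every perfect
difference set `A` there is `c > 0` with `a_n ≥ c n G(n)` for infinitely many `n ≥ 1`, where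
`a_n` is the larger element of the unique pair of elements of `A` with difference `n`. -/
def growthClass : Set (ℕ → ℝ) :=
  {G | Monotone G ∧ ∀ A : Set ℕ, IsPerfectDifferenceSet A → ∃ c : ℝ, 0 < c ∧
    {n : ℕ | 1 ≤ n ∧ ∃ a ∈ A, ∃ b ∈ A, a = b + n ∧ c * n * G n ≤ a}.Infinite}

/-- from a perfect difference set to a function outside the class: `Q` is a set of scales `N` with
`a_n ≤ C n h(N)` for all `n ≤ N` -/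
def T_GRW : Prop := ∀ (A : Set ℕ) (C : ℝ) (h : ℕ → ℝ) (Q : Set ℕ), IsPerfectDifferenceSet A →
  0 < C → (∀ N, 0 ≤ h N) → Q.Infinite →
  (∀ N ∈ Q, ∀ n, 1 ≤ n → n ≤ N → ∃ a ∈ A, ∃ b ∈ A, a = b + n ∧ (a : ℝ) ≤ C * n * h N) →
  ∀ ω : ℕ → ℝ, Tendsto ω atTop atTop →
  ∃ G : ℕ → ℝ, Monotone G ∧ G ∉ growthClass ∧ ∀ᶠ N in atTop, N ∈ Q → G N ≤ ω N * h N

end Pool.Agent.H2.PDS
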